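import Pool.Agent.Work.MP_03df5c_h91.Defs

/-!
# Homogeneous relations between `ζ(2), ζ(3), ζ(5), ζ(7), …` and one prime
-/

open MvPolynomial Pool.Agent.Work.MP_03df5c_h91

namespace Pool.Agent.Work.MP_03df5c_one

/-- The indices `2, 3, 5, 7, 9, …`. The variable `X i` stands for the zeta value at `idx i` and
has weight `idx i`. -/
def idx (i : ℕ) : ℕ := if i = 0 then 2 else 2 * i + 1

/-- `f` is weighted homogeneous of weight `w` (the variable `X i` has weight `idx i`) and two
different monomials of `f` have different exponents of `X 0`, the variable for `ζ(2)`. -/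
def Thin (w : ℕ) (f : MvPolynomial ℕ ℚ) : Prop :=
  IsWeightedHomogeneous idx f w ∧ ∀ d ∈ f.support, ∀ e ∈ f.support, d 0 = e 0 → d = e

/-- Every relation `f(ζ(2), ζ(3), ζ(5), …) = 0` with `f` thin of weight at most `N` also holds for
the `p`-adic zeta values: `f(ζ_p(2), ζ_p(3), ζ_p(5), …) = 0`. -/
def ThinTransfers (p : ℕ) [Fact p.Prime] (N : ℕ) : Prop :=
  ∀ w ≤ N, ∀ f : MvPolynomial ℕ ℚ, Thin w f →
    aeval (fun i => zetaR (idx i)) f = 0 → aeval (fun i => zetaP p (idx i)) f = 0

/-- The `ℚ`-vector space spanned by the products of weight `w` of the real zeta values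
`ζ(2), ζ(3), ζ(5), ζ(7), …`. -/
noncomputable def weightSpace (w : ℕ) : Submodule ℚ ℝ :=
  (weightedHomogeneousSubmodule ℚ idx w).map (aeval fun i => zetaR (idx i)).toLinearMap

end Pool.Agent.Work.MP_03df5c_one
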