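import Pool.Agent.Work.MP_03df5c_h91.Lowest
import Pool.Agent.Work.MP_03df5c_h91.Indep

/-!
# Non-vanishing of `ζ_p(k)` for odd `k ≡ 1` modulo `p - 1`
-/

open Filter Topology Finset Pool.Agent.Work.MP_03df5c_h91

namespace Pool.Agent.Work.MP_03df5c_one

variable {p : ℕ} [hp : Fact p.Prime]

/-- von Staudt–Clausen: `B_n` has exactly one factor `p` in the denominator if `p - 1 ∣ n`. -/
lemma norm_bernoulli_of_dvd {n : ℕ} (hn : 0 < n) (hd : (p - 1) ∣ 2 * n) :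
    ‖((bernoulli (2 * n) : ℚ) : ℚ_[p])‖ = p := by
  have hp1 : (1 : ℝ) < p := by exact_mod_cast hp.out.one_lt
  obtain ⟨z, hz⟩ := Bernoulli.vonStaudt_clausen n
  have hmem : p ∈ (range (2 * n + 2)).filter fun q ↦ q.Prime ∧ (q - 1) ∣ 2 * n := by
    refine mem_filter.2 ⟨mem_range.2 ?_, hp.out, hd⟩
    have := Nat.le_of_dvd (by omega) hd
    omega
  rw [← Finset.add_sum_erase _ _ hmem] at hz
  have h1 : ((bernoulli (2 * n) : ℚ) : ℚ_[p]) = -((p : ℚ_[p])⁻¹) + ((z : ℚ_[p])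
      - ∑ q ∈ ((range (2 * n + 2)).filter fun q ↦ q.Prime ∧ (q - 1) ∣ 2 * n).erase p,
        (q : ℚ_[p])⁻¹) := by
    have h2 := congrArg (fun t : ℚ => (t : ℚ_[p])) hz
    push_cast at h2
    simp only [one_div] at h2
    linear_combination -h2
  rw [h1]
  have h3 : ‖-((p : ℚ_[p])⁻¹)‖ = p := by
    rw [norm_neg, norm_inv, Padic.norm_p, inv_inv]
  have h4 : ‖((z : ℚ_[p])
      - ∑ q ∈ ((range (2 * n + 2)).filter fun q ↦ q.Prime ∧ (q - 1) ∣ 2 * n).erase p,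
        (q : ℚ_[p])⁻¹)‖ ≤ 1 := by
    rw [sub_eq_add_neg]
    refine (IsUltrametricDist.norm_add_le_max _ _).trans (max_le (Padic.norm_int_le_one z) ?_)
    rw [norm_neg]
    refine IsUltrametricDist.norm_sum_le_of_forall_le_of_nonneg zero_le_one fun q hq => ?_
    have hq1 := (mem_filter.1 (mem_erase.1 hq).2).2.1
    have hq2 : ¬ p ∣ q := fun h =>
      (mem_erase.1 hq).1 ((Nat.prime_dvd_prime_iff_eq hp.out hq1).1 h).symm
    rw [norm_inv, norm_nat_eq_one hq2, inv_one]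
  rw [IsUltrametricDist.norm_add_eq_max_of_norm_ne_norm, h3, max_eq_left (h4.trans hp1.le)]
  rw [h3]
  exact (lt_of_le_of_lt h4 hp1).ne'

lemma norm_klApprox_of_dvd {k : ℕ} (hk : 1 ≤ k) (hd : (p - 1) ∣ 2 * k) {M : ℕ} (hM : 1 ≤ M) :
    ‖klApprox p (2 * k + 1) M‖ = p * ‖((2 * k : ℕ) : ℚ_[p])‖⁻¹ := by
  have hp2 := hp.out.two_le
  have hpM : 2 ≤ p ^ M := hp2.trans (Nat.le_self_pow (by omega) p)
  have h1 : 2 ≤ p ^ M * (p - 1) := by
    calc 2 ≤ p ^ M * 1 := by omega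
      _ ≤ p ^ M * (p - 1) := Nat.mul_le_mul_left _ (by omega)
  have e : nSeq p (2 * k + 1) M = 2 * (k * (p ^ M * (p - 1) - 1)) := by
    unfold nSeq
    rw [Nat.add_sub_cancel]
    ring
  have hpos : 0 < k * (p ^ M * (p - 1) - 1) := Nat.mul_pos hk (by omega)
  have hnd : ¬ p ∣ (p ^ M * (p - 1) - 1) := by
    intro h
    have h2 : p ∣ p ^ M * (p - 1) := Dvd.dvd.mul_right (dvd_pow_self p (by omega)) _
    have h3 : p ∣ 1 := by
      have := (Nat.dvd_sub h2 h)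
      rwa [Nat.sub_sub_self (by omega)] at this
    exact hp.out.one_lt.ne' (Nat.dvd_one.1 h3)
  unfold klApprox
  rw [norm_div, norm_neg, norm_mul, e]
  have h4 : ‖(1 - (p : ℚ_[p]) ^ (2 * (k * (p ^ M * (p - 1) - 1)) - 1))‖ = 1 := by
    have h5 : ‖(p : ℚ_[p]) ^ (2 * (k * (p ^ M * (p - 1) - 1)) - 1)‖ < 1 := by
      rw [norm_pow]
      exact pow_lt_one₀ (norm_nonneg _) (Padic.norm_p_lt_one) (by omega)
    rw [sub_eq_add_neg, IsUltrametricDist.norm_add_eq_max_of_norm_ne_norm, norm_neg, norm_one,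
      max_eq_left h5.le]
    rw [norm_one, norm_neg]
    exact h5.ne'
  have h6 : (p - 1) ∣ 2 * (k * (p ^ M * (p - 1) - 1)) := by
    rw [← mul_assoc]
    exact Dvd.dvd.mul_right hd _
  rw [h4, one_mul, norm_bernoulli_of_dvd hpos h6, ← mul_assoc, Nat.cast_mul (2 * k), norm_mul,
    norm_nat_eq_one hnd, mul_one, div_eq_mul_inv]

/-- `ζ_p(k) ≠ 0` for odd `k ≥ 3` with `p - 1 ∣ k - 1`. -/
theorem zetaP_ne_zero_of_dvd {k : ℕ} (hk : 1 ≤ k) (hd : (p - 1) ∣ 2 * k) :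
    zetaP p (2 * k + 1) ≠ 0 := by
  have hp0 : (0 : ℝ) < p := by exact_mod_cast hp.out.pos
  have h1 : Tendsto (fun M => ‖klApprox p (2 * k + 1) M‖) atTop
      (𝓝 ‖kubotaLeopoldt p (2 * k + 1)‖) := (tendsto_kubotaLeopoldt (by omega)).norm
  have h2 : Tendsto (fun M => ‖klApprox p (2 * k + 1) M‖) atTop
      (𝓝 (p * ‖((2 * k : ℕ) : ℚ_[p])‖⁻¹)) := by
    refine tendsto_const_nhds.congr' ?_
    filter_upwards [eventually_ge_atTop 1] with M hM
    exact (norm_klApprox_of_dvd hk hd hM).symm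
  have h3 := tendsto_nhds_unique h1 h2
  have h4 : kubotaLeopoldt p (2 * k + 1) ≠ 0 := by
    intro h
    rw [h, norm_zero] at h3
    have h5 : ((2 * k : ℕ) : ℚ_[p]) ≠ 0 := by
      exact_mod_cast (by omega : 2 * k ≠ 0)
    have h6 : 0 < p * ‖((2 * k : ℕ) : ℚ_[p])‖⁻¹ := mul_pos hp0 (inv_pos.2 (norm_pos_iff.2 h5))
    exact h6.ne h3
  unfold zetaP
  refine mul_ne_zero (inv_ne_zero ?_) h4
  intro h
  have h7 : ‖((p : ℚ_[p]) ^ (2 * k + 1))⁻¹‖ = 1 := by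
    rw [← sub_eq_zero.1 h, norm_one]
  rw [norm_inv, norm_pow, Padic.norm_p, inv_pow, inv_inv] at h7
  have h8 : (1 : ℝ) < (p : ℝ) ^ (2 * k + 1) := one_lt_pow₀ (by exact_mod_cast hp.out.one_lt) (by omega)
  exact h8.ne' h7

end Pool.Agent.Work.MP_03df5c_one
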