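import Pool.Agent.Work.MP_03df5c_one.Defs
import Pool.Agent.Work.MP_03df5c_one.Nonzero

open Finset MvPolynomial Pool.Agent.Work.MP_03df5c_h91

namespace Pool.Agent.Work.MP_03df5c_one

lemma two_le_idx (i : ℕ) : 2 ≤ idx i := by
  unfold idx
  split_ifs <;> omega

lemma idx_zero : idx 0 = 2 := rfl

lemma idx_pos {i : ℕ} (hi : 1 ≤ i) : idx i = 2 * i + 1 := by
  unfold idx
  rw [if_neg (by omega)]

variable {p : ℕ} [hp : Fact p.Prime] {N : ℕ}

lemma zetaP_two : zetaP p 2 = 0 := zetaP_even (by decide) le_rfl

/-- There is at most one monomial of weight `w ≤ 8` in `ζ(3), ζ(5), ζ(7)`. -/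
lemma unique_monomial {d e : ℕ →₀ ℕ} (hd : d 0 = e 0) {w : ℕ} (hw : w ≤ 8)
    (hdw : Finsupp.weight idx d = w) (hew : Finsupp.weight idx e = w) : d = e := by
  have key : ∀ d : ℕ →₀ ℕ, Finsupp.weight idx d = w →
      (∀ i, 4 ≤ i → d i = 0) ∧ d 0 * 2 + d 1 * 3 + d 2 * 5 + d 3 * 7 = w := by
    intro d hdw
    have h1 : ∀ i, 4 ≤ i → d i = 0 := by
      intro i hi
      by_contra h
      have h2 : d i * idx i ≤ Finsupp.weight idx d := by
        rw [Finsupp.weight_apply, Finsupp.sum]
        simp only [smul_eq_mul]
        exact single_le_sum (f := fun i => d i * idx i) (fun _ _ => Nat.zero_le _)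
          (Finsupp.mem_support_iff.2 h)
      rw [hdw, idx_pos (by omega)] at h2
      have : 1 * (2 * i + 1) ≤ d i * (2 * i + 1) := Nat.mul_le_mul_right _ (by omega)
      omega
    refine ⟨h1, ?_⟩
    have h2 : d.support ⊆ {0, 1, 2, 3} := by
      intro i hi
      rw [Finsupp.mem_support_iff] at hi
      have h4 : ¬ 4 ≤ i := fun h => hi (h1 i h)
      simp
      omega
    rw [← hdw, Finsupp.weight_apply, Finsupp.sum_of_support_subset d h2 _ (by simp)]
    rw [sum_insert (by decide), sum_insert (by decide), sum_insert (by decide), sum_singleton]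
    simp only [smul_eq_mul]
    rw [idx_zero, idx_pos (i := 1) (by omega), idx_pos (i := 2) (by omega),
      idx_pos (i := 3) (by omega)]
    ring
  obtain ⟨h1, h2⟩ := key d hdw
  obtain ⟨h3, h4⟩ := key e hew
  ext i
  rcases Nat.lt_or_ge i 4 with hi | hi
  · have h5 : d 1 = e 1 ∧ d 2 = e 2 ∧ d 3 = e 3 := by
      clear key hdw hew h1 h3 hi
      generalize d 0 = t at *
      subst hd
      generalize d 1 = a at *
      generalize d 2 = b at *
      generalize d 3 = c at *
      generalize e 0 = t at *
      generalize e 1 = a' at *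
      generalize e 2 = b' at *
      generalize e 3 = c' at *
      have ha : a ≤ 2 := by omega
      have hb : b ≤ 1 := by omega
      have hc : c ≤ 1 := by omega
      have ha' : a' ≤ 2 := by omega
      have hb' : b' ≤ 1 := by omega
      have hc' : c' ≤ 1 := by omega
      interval_cases a <;> interval_cases b <;> interval_cases c <;> interval_cases a' <;>
        interval_cases b' <;> interval_cases c' <;> omega
    interval_cases i
    · exact hd
    · exact h5.1
    · exact h5.2.1
    · exact h5.2.2
  · rw [h1 i hi, h3 i hi]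

/-- In weight at most `8` every homogeneous polynomial is thin. -/
theorem thin_of_le {w : ℕ} (hw : w ≤ 8) {f : MvPolynomial ℕ ℚ} (hf : IsWeightedHomogeneous idx f w) :
    Thin w f :=
  ⟨hf, fun _ hd _ he h => unique_monomial h hw (hf (mem_support_iff.1 hd))
    (hf (mem_support_iff.1 he))⟩

/-- Thin relations transfer only if there are none. -/
theorem eq_zero_of_transfers (hz : ∀ i, 1 ≤ i → 2 * i + 1 ≤ N → zetaP p (2 * i + 1) ≠ 0)
    (ht : ThinTransfers p N) (w : ℕ) : w ≤ N → ∀ f : MvPolynomial ℕ ℚ,
    Thin w f → aeval (fun i => zetaR (idx i)) f = 0 → f = 0 := by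
  induction w using Nat.strong_induction_on with
  | _ w ih =>
    intro hwN f hf h0
    by_contra hne
    have hpad := ht w hwN f hf h0
    obtain ⟨hf, hthin⟩ := hf
    -- every monomial contains `X 0`
    have hX : ∀ d ∈ f.support, d 0 ≠ 0 := by
      intro d hd hd0
      rw [aeval_def, eval₂_eq, sum_eq_single_of_mem d hd (fun e he hed => ?_)] at hpad
      · rcases mul_eq_zero.1 hpad with h | h
        · exact (mem_support_iff.1 hd) (by simpa using h)
        · rw [prod_eq_zero_iff] at h
          obtain ⟨i, hi, h⟩ := h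
          have hi0 : i ≠ 0 := by
            rintro rfl
            exact Finsupp.mem_support_iff.1 hi hd0
          have h2 : d i * idx i ≤ Finsupp.weight idx d := by
            rw [Finsupp.weight_apply, Finsupp.sum]
            simp only [smul_eq_mul]
            exact single_le_sum (f := fun i => d i * idx i) (fun _ _ => Nat.zero_le _) hi
          rw [hf (mem_support_iff.1 hd), idx_pos (by omega)] at h2
          have h3 : 1 * (2 * i + 1) ≤ d i * (2 * i + 1) :=
            Nat.mul_le_mul_right _ (Nat.one_le_iff_ne_zero.2 (Finsupp.mem_support_iff.1 hi))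
          have h4 := pow_eq_zero_iff (Finsupp.mem_support_iff.1 hi) |>.1 h
          rw [idx_pos (by omega)] at h4
          exact hz i (by omega) (by omega) h4
      · have he0 : e 0 ≠ 0 := by
          intro he0
          exact hed (hthin e he d hd (he0.trans hd0.symm))
        rw [prod_eq_zero (i := 0) (Finsupp.mem_support_iff.2 he0), mul_zero]
        rw [idx_zero, zetaP_two, zero_pow he0]
    -- divide by `X 0`
    have hdvd : (X 0 : MvPolynomial ℕ ℚ) ∣ f := by
      rw [X_dvd_iff_modMonomial_eq_zero]
      ext d
      rw [coeff_zero]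
      by_cases hd : Finsupp.single 0 1 ≤ d
      · exact coeff_modMonomial_of_le f hd
      · rw [coeff_modMonomial_of_not_le f hd]
        by_contra h
        have h1 := hX d (mem_support_iff.2 h)
        apply hd
        rw [Finsupp.single_le_iff]
        omega
    obtain ⟨g, rfl⟩ := hdvd
    have hg0 : g ≠ 0 := fun h => hne (by rw [h, mul_zero])
    have hsupp : ∀ d, coeff d g ≠ 0 → coeff (Finsupp.single 0 1 + d) (X 0 * g) ≠ 0 := by
      intro d hd
      rw [coeff_X_mul]
      exact hd
    have hwt : ∀ d, coeff d g ≠ 0 → Finsupp.weight idx d + 2 = w := by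
      intro d hd
      have h2 := hf (hsupp d hd)
      rw [map_add, Finsupp.weight_single, idx_zero] at h2
      simp only [one_smul] at h2
      omega
    obtain ⟨d, hd⟩ := MvPolynomial.ne_zero_iff.1 hg0
    have h2w := hwt d hd
    refine hg0 (ih (w - 2) (by omega) (by omega) g ⟨?_, ?_⟩ ?_)
    · intro e he
      have := hwt e he
      omega
    · intro d hd e he hde
      have := hthin _ (mem_support_iff.2 (hsupp d (mem_support_iff.1 hd))) _
        (mem_support_iff.2 (hsupp e (mem_support_iff.1 he))) (by simp [hde])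
      exact add_left_cancel this
    · rw [map_mul, aeval_X, idx_zero] at h0
      exact (mul_eq_zero.1 h0).resolve_left (zetaR_pos le_rfl).ne'

/-- The exponent of a monomial of weight `v`. -/
noncomputable def expo (v : ℕ) : ℕ →₀ ℕ :=
  if v % 2 = 1 then Finsupp.single ((v - 1) / 2) 1
  else if v = 4 then Finsupp.single 0 2
  else Finsupp.single 1 1 + Finsupp.single ((v - 4) / 2) 1

lemma weight_expo {v : ℕ} (hv : 3 ≤ v) : Finsupp.weight idx (expo v) = v := by
  unfold expo
  split_ifs with h1 h2
  · rw [Finsupp.weight_single, idx_pos (by omega), one_smul]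
    omega
  · rw [Finsupp.weight_single, idx_zero, h2]
    rfl
  · rw [map_add, Finsupp.weight_single, Finsupp.weight_single, idx_pos (by omega),
      idx_pos (by omega), one_smul, one_smul]
    omega

lemma expo_zero {v : ℕ} (hv : 3 ≤ v) : expo v 0 = if v = 4 then 2 else 0 := by
  unfold expo
  split_ifs with h1 h2 h3
  · omega
  · rw [Finsupp.single_apply, if_neg (by omega)]
  · simp
  · rw [Finsupp.add_apply, Finsupp.single_apply, Finsupp.single_apply, if_neg (by omega),
      if_neg (by omega), add_zero]

/-- The exponents of the monomials `ζ(2)^i m` of weight `w`. -/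
noncomputable def expw (w i : ℕ) : ℕ →₀ ℕ := Finsupp.single 0 i + expo (w - 2 * i)

lemma weight_expw {w i : ℕ} (hi : i < (w - 1) / 2) : Finsupp.weight idx (expw w i) = w := by
  unfold expw
  rw [map_add, Finsupp.weight_single, weight_expo (by omega), idx_zero, smul_eq_mul]
  omega

lemma expw_zero {w i : ℕ} (hi : i < (w - 1) / 2) :
    expw w i 0 = if w - 2 * i = 4 then i + 2 else i := by
  unfold expw
  rw [Finsupp.add_apply, expo_zero (by omega), Finsupp.single_eq_same]
  split_ifs <;> omega

lemma expw_inj {w i j : ℕ} (hi : i < (w - 1) / 2) (hj : j < (w - 1) / 2)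
    (h : expw w i 0 = expw w j 0) : i = j := by
  rw [expw_zero hi, expw_zero hj] at h
  split_ifs at h <;> omega

/-- The dimension of the space of weight `w` is at least `⌊(w-1)/2⌋`. -/
theorem rank_weightSpace (w : ℕ) (h : ∀ f : MvPolynomial ℕ ℚ, Thin w f →
      aeval (fun i => zetaR (idx i)) f = 0 → f = 0) :
    (((w - 1) / 2 : ℕ) : Cardinal) ≤ Module.rank ℚ (weightSpace w) := by
  have hmem : ∀ i : Fin ((w - 1) / 2),
      aeval (fun i => zetaR (idx i)) (monomial (expw w i) (1 : ℚ)) ∈ weightSpace w := by
    intro i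
    exact ⟨monomial (expw w i) 1, isWeightedHomogeneous_monomial _ _ _ (weight_expw i.2), rfl⟩
  have hli : LinearIndependent ℚ (fun i : Fin ((w - 1) / 2) =>
      (⟨_, hmem i⟩ : weightSpace w)) := by
    rw [Fintype.linearIndependent_iff]
    intro g hg i
    have h1 := congrArg (fun t : weightSpace w => (t : ℝ)) hg
    simp only [Submodule.coe_sum, Submodule.coe_smul, ZeroMemClass.coe_zero] at h1
    set f : MvPolynomial ℕ ℚ := ∑ i : Fin ((w - 1) / 2), monomial (expw w i) (g i) with hf
    have hco : ∀ i : Fin ((w - 1) / 2), coeff (expw w i) f = g i := by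
      intro i
      rw [hf, coeff_sum, sum_eq_single i, coeff_monomial, if_pos rfl]
      · intro j _ hji
        rw [coeff_monomial, if_neg]
        intro h
        exact hji (Fin.ext (expw_inj j.2 i.2 (by rw [h])))
      · simp
    have hsup : ∀ d ∈ f.support, ∃ i : Fin ((w - 1) / 2), d = expw w i := by
      intro d hd
      by_contra hcon
      push Not at hcon
      apply mem_support_iff.1 hd
      rw [hf, coeff_sum]
      refine sum_eq_zero fun i _ => ?_
      rw [coeff_monomial, if_neg (hcon i).symm]
    have hthin : Thin w f := by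
      refine ⟨?_, ?_⟩
      · intro d hd
        obtain ⟨i, rfl⟩ := hsup d (mem_support_iff.2 hd)
        exact weight_expw i.2
      · intro d hd e he hde
        obtain ⟨i, rfl⟩ := hsup d hd
        obtain ⟨j, rfl⟩ := hsup e he
        rw [expw_inj i.2 j.2 hde]
    have h0 : aeval (fun i => zetaR (idx i)) f = 0 := by
      rw [← h1, hf, map_sum]
      refine sum_congr rfl fun i _ => ?_
      rw [← map_smul, smul_monomial, smul_eq_mul, mul_one]
    have := hco i
    rw [h f hthin h0, coeff_zero] at this
    exact this.symm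
  have := hli.cardinal_le_rank
  simpa using this

/-- For `p = 2` and `p = 3` all `ζ_p(3), ζ_p(5), …` are non-zero. -/
theorem nonzero_of_two_or_three (h : p = 2 ∨ p = 3) {i : ℕ} (hi : 1 ≤ i) :
    zetaP p (2 * i + 1) ≠ 0 := by
  apply zetaP_ne_zero_of_dvd hi
  rcases h with rfl | rfl
  · simp
  · exact Dvd.intro _ rfl

end Pool.Agent.Work.MP_03df5c_one
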